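import Mathlib

set_option autoImplicit false

namespace Kcg

theorem ceil_le (k r q : ℕ) (h : k ≤ r * q) : ⌈2 * √(k : ℝ)⌉₊ ≤ r + q := by
  rw [Nat.ceil_le]
  push_cast
  have h1 : (k : ℝ) ≤ r * q := by exact_mod_cast h
  have h2 : √(k : ℝ) ≤ ((r : ℝ) + q) / 2 := by
    rw [Real.sqrt_le_left (by positivity)]
    nlinarith [sq_nonneg ((r : ℝ) - q)]
  linarith

private theorem arith_lt (k n : ℕ) (h : n ^ 2 < 4 * k) : n + 1 ≤ ⌈2 * √(k : ℝ)⌉₊ := by
  rw [Nat.add_one_le_iff, Nat.lt_ceil]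
  have h1 : ((n : ℝ) / 2) < √(k : ℝ) := by
    rw [Real.lt_sqrt (by positivity)]
    have h2 : ((n : ℝ)) ^ 2 < 4 * k := by exact_mod_cast h
    nlinarith
  linarith

theorem exists_q (k : ℕ) (hk : 1 ≤ k) : ∃ q : ℕ, 1 ≤ q ∧ q ≤ k ∧
    q + (k - 1) / q + 1 ≤ ⌈2 * √(k : ℝ)⌉₊ := by
  have hs1 : Nat.sqrt k ^ 2 ≤ k := Nat.sqrt_le' k
  have hs2 : k < (Nat.sqrt k + 1) ^ 2 := Nat.lt_succ_sqrt' k
  have hs0 : 0 < Nat.sqrt k := Nat.sqrt_pos.2 hk
  generalize Nat.sqrt k = s at hs1 hs2 hs0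
  rcases Nat.lt_trichotomy (s ^ 2) k with h1 | h1 | h1
  · rcases Nat.lt_or_ge (s ^ 2 + s) k with h2 | h2
    · refine ⟨s + 1, by omega, by nlinarith, ?_⟩
      have h3 : (k - 1) / (s + 1) ≤ s := by
        have : (k - 1) / (s + 1) < s + 1 := by
          rw [Nat.div_lt_iff_lt_mul (by omega)]
          have h5 : (s + 1) * (s + 1) = (s + 1) ^ 2 := by ring
          omega
        omega
      have h4 := arith_lt k (2 * s + 1) (by nlinarith)
      omega
    · refine ⟨s, hs0, by nlinarith, ?_⟩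
      have h3 : (k - 1) / s ≤ s := by
        have : (k - 1) / s < s + 1 := by
          rw [Nat.div_lt_iff_lt_mul hs0]
          have h5 : (s + 1) * s = s ^ 2 + s := by ring
          omega
        omega
      have h4 := arith_lt k (2 * s) (by nlinarith)
      omega
  · refine ⟨s, hs0, by nlinarith, ?_⟩
    have h3 : (k - 1) / s ≤ s - 1 := by
      have : (k - 1) / s < s := by
        rw [Nat.div_lt_iff_lt_mul hs0]
        have h5 : s * s = s ^ 2 := by ring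
        omega
      omega
    have h4 := arith_lt k (2 * s - 1) (by
      obtain ⟨t, rfl⟩ : ∃ t, s = t + 1 := ⟨s - 1, by omega⟩
      have h6 : 2 * (t + 1) - 1 = 2 * t + 1 := by omega
      rw [h6]
      nlinarith)
    omega
  · omega

theorem ceil_le_self (k : ℕ) (hk : 4 ≤ k) : ⌈2 * √(k : ℝ)⌉₊ ≤ k := by
  rw [Nat.ceil_le]
  have h1 : (4 : ℝ) ≤ k := by exact_mod_cast hk
  have h2 : √(k : ℝ) ≤ (k : ℝ) / 2 := by
    rw [Real.sqrt_le_left (by positivity)]
    nlinarith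
  linarith

end Kcg
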