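import Pool.Agent.Kcg.Defs

set_option autoImplicit false

namespace Kcg

/-- The number of consecutive pairs of a list that are not related. -/
def bad {V : Type} (R : V → V → Prop) [DecidableRel R] : List V → ℕ
  | [] => 0
  | [_] => 0
  | x :: y :: l => (if R x y then 0 else 1) + bad R (y :: l)

private theorem cntf_aux {V : Type} (R : V → V → Prop) [DecidableRel R] (p : V → Bool)
    (L : List V) : L.IsChain R → ∀ x,
    bad R (x :: L.filter p) ≤ (L.filter (fun x => !p x)).length + 1 ∧
      ((x :: L).IsChain R → bad R (x :: L.filter p) ≤ (L.filter (fun x => !p x)).length) := by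
  induction L with
  | nil => intro _ x; simp [bad]
  | cons y l ih =>
    intro hc x
    have hl : l.IsChain R := hc.tail
    by_cases hy : p y = true
    · have e1 : (y :: l).filter p = y :: l.filter p := by simp [hy]
      have e2 : (y :: l).filter (fun x => !p x) = l.filter (fun x => !p x) := by simp [hy]
      rw [e1, e2]
      have h2 := (ih hl y).2 hc
      have e3 : bad R (x :: y :: l.filter p) = (if R x y then 0 else 1) + bad R (y :: l.filter p) :=
        rfl
      rw [e3]
      constructor
      · split_ifs <;> omega
      · intro hxy
        have : R x y := (List.isChain_cons_cons.1 hxy).1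
        rw [if_pos this]
        omega
    · have e1 : (y :: l).filter p = l.filter p := by simp [hy]
      have e2 : (y :: l).filter (fun x => !p x) = y :: l.filter (fun x => !p x) := by simp [hy]
      rw [e1, e2, List.length_cons]
      have h1 := (ih hl x).1
      exact ⟨by omega, fun _ => h1⟩

/-- In a list with related consecutive elements, every unrelated consecutive pair of the sublist of
the elements with `p` has an element without `p` between its two elements. -/
theorem bad_filter_le {V : Type} (R : V → V → Prop) [DecidableRel R] (p : V → Bool) (L : List V)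
    (hL : L.IsChain R) : bad R (L.filter p) ≤ (L.filter (fun x => !p x)).length := by
  induction L with
  | nil => simp [bad]
  | cons x l ih =>
    by_cases hx : p x = true
    · have e1 : (x :: l).filter p = x :: l.filter p := by simp [hx]
      have e2 : (x :: l).filter (fun x => !p x) = l.filter (fun x => !p x) := by simp [hx]
      rw [e1, e2]
      exact (cntf_aux R p l hL.tail x).2 hL
    · have e1 : (x :: l).filter p = l.filter p := by simp [hx]
      have e2 : (x :: l).filter (fun x => !p x) = x :: l.filter (fun x => !p x) := by simp [hx]
      rw [e1, e2, List.length_cons]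
      have := ih hL.tail
      omega

private theorem bad_ofFn_aux (q : ℕ) (hq : 1 ≤ q) {V : Type} (R : V → V → Prop) [DecidableRel R] :
    ∀ (k s : ℕ) (v : Fin (k + 1) → V),
      (∀ i j : Fin (k + 1), R (v i) (v j) ↔ ((i : ℕ) + s) / q ≠ ((j : ℕ) + s) / q) →
      bad R (List.ofFn v) + ((s + k) / q - s / q) = k := by
  intro k
  induction k with
  | zero =>
    intro s v _
    simp [bad]
  | succ k ih =>
    intro s v h
    have hw : List.ofFn (fun i : Fin (k + 1) => v i.succ) =
        v (Fin.succ 0) :: List.ofFn (fun i : Fin k => v i.succ.succ) := List.ofFn_succ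
    have h1 := ih (s + 1) (fun i : Fin (k + 1) => v i.succ) (by
      intro i j
      have h2 := h i.succ j.succ
      rw [h2]
      simp only [Fin.val_succ]
      rw [show (i : ℕ) + 1 + s = i + (s + 1) by ring, show (j : ℕ) + 1 + s = j + (s + 1) by ring])
    have h3 : List.ofFn v = v 0 :: v (Fin.succ 0) :: List.ofFn (fun i : Fin k => v i.succ.succ) := by
      rw [List.ofFn_succ, hw]
    have h4 : bad R (List.ofFn v) =
        (if R (v 0) (v (Fin.succ 0)) then 0 else 1) +
          bad R (List.ofFn (fun i : Fin (k + 1) => v i.succ)) := by
      rw [h3, hw]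
      rfl
    have h5 := h 0 (Fin.succ 0)
    simp only [Fin.val_zero, Fin.val_succ, zero_add] at h5
    have h6 : (s + 1) / q = s / q ∨ (s + 1) / q = s / q + 1 := by
      rw [Nat.succ_div]
      split_ifs
      · right; rfl
      · left; rfl
    have h7 : (s + 1) / q ≤ (s + 1 + k) / q := Nat.div_le_div_right (by omega)
    rw [h4]
    rw [show s + (k + 1) = s + 1 + k by ring]
    rcases h6 with h6 | h6
    · have h8 : ¬ R (v 0) (v (Fin.succ 0)) := by
        rw [h5, add_comm 1 s, h6]
        simp
      rw [if_neg h8]
      omega
    · have h8 : R (v 0) (v (Fin.succ 0)) := by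
        rw [h5, add_comm 1 s, h6]
        omega
      rw [if_pos h8]
      omega

/-- The list `0, ..., k - 1` cut into blocks of `q` consecutive numbers has
`k - 1 - (k - 1) / q` consecutive pairs inside a block. -/
theorem bad_ofFn (k q : ℕ) (hq : 1 ≤ q) {V : Type} (R : V → V → Prop) [DecidableRel R]
    (v : Fin k → V) (h : ∀ i j : Fin k, R (v i) (v j) ↔ (i : ℕ) / q ≠ (j : ℕ) / q) :
    bad R (List.ofFn v) = k - 1 - (k - 1) / q := by
  cases k with
  | zero => simp [bad]
  | succ m =>
    have h1 := bad_ofFn_aux q hq R m 0 v (by
      intro i j
      simpa using h i j)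
    simp only [zero_add, Nat.zero_div, Nat.sub_zero] at h1
    simp only [Nat.add_sub_cancel]
    omega

end Kcg
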