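import Pool.Agent.Kcg.Defs

set_option autoImplicit false

namespace Kcg

private theorem exists_cycle_succ {k : ℕ} [NeZero k] (hk : 3 ≤ k) (i : ℕ) (hi : i + 1 < k) :
    (⟨i, by omega⟩ + 1 : Fin k) = ⟨i + 1, hi⟩ := by
  apply Fin.ext
  rw [Fin.val_add, Fin.val_one', Nat.mod_eq_of_lt (by omega : 1 < k), Nat.mod_eq_of_lt hi]

private theorem exists_cycle_last {k : ℕ} [NeZero k] (hk : 3 ≤ k) :
    (⟨k - 1, by omega⟩ + 1 : Fin k) = ⟨0, by omega⟩ := by
  apply Fin.ext
  rw [Fin.val_add, Fin.val_one', Nat.mod_eq_of_lt (by omega : 1 < k)]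
  show (k - 1 + 1) % k = 0
  rw [Nat.sub_add_cancel (by omega), Nat.mod_self]

private theorem exists_cycle_sub {V ι : Type} (v : ι → V) (B : ι → List V)
    (h : ∀ i, [v i].Sublist (B i)) (l : List ι) : (l.map v).Sublist (l.map B).flatten := by
  induction l with
  | nil => simp
  | cons a l ih =>
    rw [List.map_cons, List.map_cons, List.flatten_cons]
    exact (h a).append ih

/-- The cycle `v 0, [f 0], v 1, [f 1], ..., v (k-1), [f (k-1)]`, where `f j` is only used if `v j`
and `v (j + 1)` are not adjacent. -/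
theorem exists_cycle {V : Type} (G : SimpleGraph V) (k : ℕ) (hk : 3 ≤ k) [NeZero k]
    (v : Fin k → V) (hv : Function.Injective v) (f : Fin k → V)
    (hf : ∀ j, ¬ G.Adj (v j) (v (j + 1)) →
      G.Adj (v j) (f j) ∧ G.Adj (f j) (v (j + 1)) ∧ ∀ i, f j ≠ v i)
    (hinj : ∀ i j, ¬ G.Adj (v i) (v (i + 1)) → ¬ G.Adj (v j) (v (j + 1)) → f i = f j → i = j) :
    ∃ L : List V, IsCycleList G L ∧ (List.ofFn v).Sublist L := by
  classical
  let B : Fin k → List V := fun j => if G.Adj (v j) (v (j + 1)) then [v j] else [v j, f j]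
  have hB1 : ∀ j, G.Adj (v j) (v (j + 1)) → B j = [v j] := fun j h => if_pos h
  have hB2 : ∀ j, ¬ G.Adj (v j) (v (j + 1)) → B j = [v j, f j] := fun j h => if_neg h
  have hne : ∀ j, B j ≠ [] := by
    intro j
    by_cases h : G.Adj (v j) (v (j + 1))
    · rw [hB1 j h]; simp
    · rw [hB2 j h]; simp
  have hhead : ∀ j, (B j).head (hne j) = v j := by
    intro j
    by_cases h : G.Adj (v j) (v (j + 1))
    · simp [hB1 j h]
    · simp [hB2 j h]
  have hlast : ∀ j, G.Adj ((B j).getLast (hne j)) (v (j + 1)) := by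
    intro j
    by_cases h : G.Adj (v j) (v (j + 1))
    · simpa [hB1 j h] using h
    · simpa [hB2 j h] using (hf j h).2.1
  have hmem : ∀ j x, x ∈ B j → x = v j ∨ (¬ G.Adj (v j) (v (j + 1)) ∧ x = f j) := by
    intro j x hx
    by_cases h : G.Adj (v j) (v (j + 1))
    · rw [hB1 j h] at hx
      exact Or.inl (List.mem_singleton.1 hx)
    · rw [hB2 j h] at hx
      simp only [List.mem_cons, List.not_mem_nil, or_false] at hx
      rcases hx with hx | hx
      · exact Or.inl hx
      · exact Or.inr ⟨h, hx⟩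
  set LB : List (List V) := List.ofFn B with hLB
  have hsub : (List.ofFn v).Sublist LB.flatten := by
    have h1 := exists_cycle_sub v B (fun i => ?_) (List.finRange k)
    · rwa [← List.ofFn_eq_map, ← List.ofFn_eq_map] at h1
    · by_cases h : G.Adj (v i) (v (i + 1))
      · rw [hB1 i h]
      · rw [hB2 i h]
        simp
  have hlen : 3 ≤ LB.flatten.length := by
    have h1 := hsub.length_le
    rw [List.length_ofFn] at h1
    omega
  have hLne : LB ≠ [] := by
    intro h
    rw [h] at hlen
    simp at hlen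
  refine ⟨LB.flatten, ⟨hlen, ?_, ?_, ?_⟩, hsub⟩
  · rw [List.nodup_flatten]
    constructor
    · intro l hl
      rw [hLB, List.mem_ofFn] at hl
      obtain ⟨j, rfl⟩ := hl
      by_cases h : G.Adj (v j) (v (j + 1))
      · rw [hB1 j h]
        exact List.nodup_singleton _
      · rw [hB2 j h]
        have := (hf j h).2.2 j
        simp [this.symm]
    · rw [hLB, List.pairwise_ofFn]
      intro i j hij
      rw [List.disjoint_left]
      intro x hx hx'
      rcases hmem i x hx with h1 | ⟨h1, h1'⟩ <;> rcases hmem j x hx' with h2 | ⟨h2, h2'⟩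
      · exact hij.ne (hv (h1.symm.trans h2))
      · exact (hf j h2).2.2 i (h2'.symm.trans h1)
      · exact (hf i h1).2.2 j (h1'.symm.trans h2)
      · exact hij.ne (hinj i j h1 h2 (h1'.symm.trans h2'))
  · rw [List.isChain_flatten (by
      intro h
      rw [hLB, List.mem_ofFn] at h
      obtain ⟨j, hj⟩ := h
      exact hne j hj)]
    constructor
    · intro l hl
      rw [hLB, List.mem_ofFn] at hl
      obtain ⟨j, rfl⟩ := hl
      by_cases h : G.Adj (v j) (v (j + 1))
      · rw [hB1 j h]
        simp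
      · rw [hB2 j h]
        simp [(hf j h).1]
    · rw [List.isChain_iff_getElem]
      intro i hi x hx y hy
      rw [hLB, List.length_ofFn] at hi
      have e1 : LB[i]'(by rw [hLB, List.length_ofFn]; omega) = B ⟨i, by omega⟩ := by
        simp [hLB]
      have e2 : LB[i + 1]'(by rw [hLB, List.length_ofFn]; omega) = B ⟨i + 1, hi⟩ := by
        simp [hLB]
      rw [e1, List.getLast?_eq_getLast_of_ne_nil (hne _)] at hx
      rw [e2, List.head?_eq_some_head (hne _)] at hy
      rw [Option.mem_some] at hx hy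
      rw [← hx, ← hy, hhead, ← exists_cycle_succ hk i hi]
      exact hlast _
  · have hfl : LB.flatten ≠ [] := by
      intro h
      rw [h] at hlen
      simp at hlen
    have e1 : LB.getLast hLne = B ⟨k - 1, by omega⟩ := by
      simp [hLB, List.getLast_ofFn]
    have e2 : LB.head hLne = B ⟨0, by omega⟩ := by
      simp [hLB, List.head_ofFn]
    refine ⟨hfl, ?_⟩
    have e3 : LB.flatten.getLast hfl = (B ⟨k - 1, by omega⟩).getLast (hne _) := by
      rw [List.getLast_flatten_eq_getLast_getLast hfl (by rw [e1]; exact hne _)]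
      congr 1
    have e4 : LB.flatten.head hfl = v ⟨0, by omega⟩ := by
      rw [List.head_flatten_eq_head_head hfl (by rw [e2]; exact hne _), ← hhead]
      congr 1
    rw [e3, e4, ← exists_cycle_last hk]
    exact hlast _

end Kcg
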