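import Mathlib

set_option autoImplicit false

namespace Kcg

/-- `G` has no induced path on four vertices. (The four vertices are automatically different.) -/
def P4Free {V : Type} (G : SimpleGraph V) : Prop :=
  ∀ a b c d, G.Adj a b → G.Adj b c → G.Adj c d → ¬ G.Adj a c → ¬ G.Adj b d → G.Adj a d

/-- `G` is `m`-connected: it has more than `m` vertices and stays connected after deleting any set
of fewer than `m` vertices. -/
def MConn {V : Type} [Fintype V] (m : ℕ) (G : SimpleGraph V) : Prop :=
  m < Fintype.card V ∧ ∀ S : Finset V, S.card < m → (G.induce {x | x ∉ S}).Connected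

/-- `L` lists the vertices of a cycle of `G` in the order in which the cycle runs through them. -/
def IsCycleList {V : Type} (G : SimpleGraph V) (L : List V) : Prop :=
  3 ≤ L.length ∧ L.Nodup ∧ L.IsChain G.Adj ∧ ∃ h : L ≠ [], G.Adj (L.getLast h) (L.head h)

/-- `G` is `k`-ordered: for all different vertices `v 0, ..., v (k - 1)` some cycle, traversed in one
of its directions from a suitable vertex on, meets them in this order. -/
def KOrdered {V : Type} (k : ℕ) (G : SimpleGraph V) : Prop :=
  ∀ v : Fin k → V, Function.Injective v →
    ∃ L : List V, IsCycleList G L ∧ (List.ofFn v).Sublist L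

end Kcg
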