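import Pool.Agent.Kcg.Defs

set_option autoImplicit false

namespace Kcg

open Finset

private theorem hall_cyc {k : ℕ} [NeZero k] (S : Fin k → Prop) (j0 : Fin k) (h0 : S j0)
    (h : ∀ j, S j → S (j + 1)) (i : Fin k) : S i := by
  have hk : 0 < k := Nat.pos_of_ne_zero (NeZero.ne k)
  have key : ∀ n : ℕ, S ⟨((j0 : ℕ) + n) % k, Nat.mod_lt _ hk⟩ := by
    intro n
    induction n with
    | zero =>
      have e : (⟨((j0 : ℕ) + 0) % k, Nat.mod_lt _ hk⟩ : Fin k) = j0 :=
        Fin.ext (by simp [Nat.mod_eq_of_lt j0.isLt])
      rw [e]
      exact h0
    | succ n ih =>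
      have e : (⟨((j0 : ℕ) + (n + 1)) % k, Nat.mod_lt _ hk⟩ : Fin k) =
          ⟨((j0 : ℕ) + n) % k, Nat.mod_lt _ hk⟩ + 1 := by
        apply Fin.ext
        rw [Fin.val_add, Fin.val_one']
        show ((j0 : ℕ) + (n + 1)) % k = (((j0 : ℕ) + n) % k + 1 % k) % k
        rw [← Nat.add_mod, add_assoc]
      rw [e]
      exact h _ ih
  have e : (⟨((j0 : ℕ) + ((i : ℕ) + k - (j0 : ℕ))) % k, Nat.mod_lt _ hk⟩ : Fin k) = i := by
    apply Fin.ext
    show ((j0 : ℕ) + ((i : ℕ) + k - (j0 : ℕ))) % k = i
    have h1 : (j0 : ℕ) + ((i : ℕ) + k - (j0 : ℕ)) = i + k := by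
      have := j0.isLt
      omega
    rw [h1, Nat.add_mod_right, Nat.mod_eq_of_lt i.isLt]
  rw [← e]
  exact key _

/-- Hall's condition. `c x` is the name of the class (co-component) of `x`. Every class that contains
two vertices has at least `m` vertices outside. Then the pairs `v j, v (j+1)` in one class have
different representatives outside their class and outside the range of `v`. Two cases for a set `A`
of pairs: one class `b`: `A.card ≤ #{i | c (v i) = b} ≤ #(outside b, outside range v)` because
`k ≤ m`. At least two classes: the union is everything outside `range v`; with `r` classes meeting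
`range v` and `q` the largest number of `v i` in one class: `A.card ≤ k - r`, `k ≤ r * q`,
`m + q ≤ card V`. -/
theorem exists_connectors {V B : Type} [Fintype V] [DecidableEq V] [DecidableEq B] (c : V → B)
    (k m : ℕ) [NeZero k] (hkm : k ≤ m) (harith : ∀ r q : ℕ, k ≤ r * q → 2 * k ≤ m + r + q)
    (v : Fin k → V) (hv : Function.Injective v)
    (hm : ∀ x y, x ≠ y → c x = c y → m ≤ (univ.filter (fun z => c z ≠ c x)).card) :
    ∃ f : Fin k → V, (∀ j, c (v j) = c (v (j + 1)) → v j ≠ v (j + 1) →
      c (f j) ≠ c (v j) ∧ ∀ i, f j ≠ v i) ∧
      ∀ i j, c (v i) = c (v (i + 1)) → c (v j) = c (v (j + 1)) → v i ≠ v (i + 1) →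
        v j ≠ v (j + 1) → f i = f j → i = j := by
  classical
  set J : Fin k → Prop := fun j => c (v j) = c (v (j + 1)) ∧ v j ≠ v (j + 1) with hJ
  let t : {j // J j} → Finset V := fun j => univ.filter fun z => c z ≠ c (v j.1) ∧ ∀ i, z ≠ v i
  have hall : ∀ A : Finset {j // J j}, A.card ≤ (A.biUnion t).card := by
    intro A
    rcases A.eq_empty_or_nonempty with rfl | ⟨j0, hj0⟩
    · simp
    by_cases hone : ∀ j ∈ A, c (v j.1) = c (v j0.1)
    · -- one class
      have h1 : A.card ≤ (univ.filter fun i : Fin k => c (v i) = c (v j0.1)).card :=
        Finset.card_le_card_of_injOn (fun j => j.1)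
          (fun j hj => by simpa using hone j hj) (fun a _ b _ hab => Subtype.ext hab)
      have h2 : m ≤ (univ.filter fun z => c z ≠ c (v j0.1)).card := hm _ _ j0.2.2 j0.2.1
      have h3 : (univ.filter fun z => c z ≠ c (v j0.1)) ⊆
          t j0 ∪ (univ.filter fun i : Fin k => ¬ c (v i) = c (v j0.1)).image v := by
        intro z hz
        rw [Finset.mem_filter] at hz
        rw [Finset.mem_union]
        by_cases hzi : ∃ i, v i = z
        · obtain ⟨i, rfl⟩ := hzi
          exact Or.inr (Finset.mem_image_of_mem _ (Finset.mem_filter.2 ⟨Finset.mem_univ _, hz.2⟩))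
        · exact Or.inl (Finset.mem_filter.2 ⟨Finset.mem_univ _, hz.2, fun i hi => hzi ⟨i, hi.symm⟩⟩)
      have h4 := Finset.card_le_card h3
      have h5 := Finset.card_union_le (t j0)
        ((univ.filter fun i : Fin k => ¬ c (v i) = c (v j0.1)).image v)
      have h6 : ((univ.filter fun i : Fin k => ¬ c (v i) = c (v j0.1)).image v).card ≤
          (univ.filter fun i : Fin k => ¬ c (v i) = c (v j0.1)).card := Finset.card_image_le
      have h7 := Finset.card_filter_add_card_filter_not (s := (univ : Finset (Fin k)))
        (fun i : Fin k => c (v i) = c (v j0.1))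
      rw [Finset.card_univ, Fintype.card_fin] at h7
      have h8 : (t j0).card ≤ (A.biUnion t).card :=
        Finset.card_le_card (Finset.subset_biUnion_of_mem t hj0)
      omega
    · -- two classes
      push Not at hone
      obtain ⟨j1, hj1, hne⟩ := hone
      -- the largest number of members in one class
      obtain ⟨i1, -, hi1⟩ := Finset.exists_max_image (univ : Finset (Fin k))
        (fun i => (univ.filter fun i' : Fin k => c (v i') = c (v i)).card) ⟨j0.1, Finset.mem_univ _⟩
      set q := (univ.filter fun i' : Fin k => c (v i') = c (v i1)).card with hq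
      set r := (univ.image fun i : Fin k => c (v i)).card with hr
      have hkr : k ≤ r * q := by
        have h1 := Finset.card_le_mul_card_image (f := fun i : Fin k => c (v i))
          (univ : Finset (Fin k)) q (by
            intro a ha
            obtain ⟨i, -, rfl⟩ := Finset.mem_image.1 ha
            exact hi1 i (Finset.mem_univ _))
        rw [Finset.card_univ, Fintype.card_fin] at h1
        rw [mul_comm]
        exact h1
      have h2 := harith r q hkr
      -- the class of `i1` has at least two members
      have hq2 : 2 ≤ q := by
        refine le_trans ?_ (hi1 j0.1 (Finset.mem_univ _))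
        have h3 : ({j0.1, j0.1 + 1} : Finset (Fin k)) ⊆
            univ.filter fun i' : Fin k => c (v i') = c (v j0.1) := by
          intro i hi
          rw [Finset.mem_insert, Finset.mem_singleton] at hi
          rw [Finset.mem_filter]
          rcases hi with rfl | rfl
          · exact ⟨Finset.mem_univ _, rfl⟩
          · exact ⟨Finset.mem_univ _, j0.2.1.symm⟩
        have h4 : ({j0.1, j0.1 + 1} : Finset (Fin k)).card = 2 :=
          Finset.card_pair fun h => j0.2.2 (congrArg v h)
        rw [← h4]
        exact Finset.card_le_card h3
      have hV : m + q ≤ Fintype.card V := by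
        obtain ⟨a, ha, b, hb, hab⟩ := Finset.one_lt_card.1 (show 1 < q by omega)
        rw [Finset.mem_filter] at ha hb
        have h3 : m ≤ (univ.filter fun z => c z ≠ c (v i1)).card := by
          have := hm (v a) (v b) (fun h => hab (hv h)) (ha.2.trans hb.2.symm)
          rwa [ha.2] at this
        have h4 : q ≤ (univ.filter fun z => c z = c (v i1)).card :=
          Finset.card_le_card_of_injOn v (fun i hi => by
            simpa using (Finset.mem_filter.1 hi).2) (fun a _ b _ h => hv h)
        have h5 := Finset.card_filter_add_card_filter_not (s := (univ : Finset V))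
          (fun z => c z = c (v i1))
        rw [Finset.card_univ] at h5
        have h6 : (univ.filter fun z => ¬ c z = c (v i1)).card =
          (univ.filter fun z => c z ≠ c (v i1)).card := rfl
        omega
      -- at least `r` changes of the class
      have hchg : r ≤ (univ.filter fun j : Fin k => ¬ c (v j) = c (v (j + 1))).card := by
        have h3 : (univ.image fun i : Fin k => c (v i)) ⊆
            (univ.filter fun j : Fin k => ¬ c (v j) = c (v (j + 1))).image fun i => c (v i) := by
          intro b hb
          obtain ⟨i, -, rfl⟩ := Finset.mem_image.1 hb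
          by_contra hcon
          have hcl : ∀ j : Fin k, c (v j) = c (v i) → c (v (j + 1)) = c (v i) := by
            intro j hj
            by_contra hj'
            exact hcon (Finset.mem_image.2 ⟨j, Finset.mem_filter.2 ⟨Finset.mem_univ _, by
              rw [hj]; exact fun h => hj' h.symm⟩, hj⟩)
          have hall := hall_cyc (fun j => c (v j) = c (v i)) i rfl hcl
          exact hne ((hall j1.1).trans (hall j0.1).symm)
        exact (Finset.card_le_card h3).trans Finset.card_image_le
      have hA : A.card ≤ (univ.filter fun j : Fin k => c (v j) = c (v (j + 1))).card :=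
        Finset.card_le_card_of_injOn (fun j => j.1)
          (fun j _ => by simpa using j.2.1) (fun a _ b _ hab => Subtype.ext hab)
      have h7 := Finset.card_filter_add_card_filter_not (s := (univ : Finset (Fin k)))
        (fun j : Fin k => c (v j) = c (v (j + 1)))
      rw [Finset.card_univ, Fintype.card_fin] at h7
      -- the union is everything outside the range
      have hU : Fintype.card V ≤ (A.biUnion t).card + k := by
        have h8 : (univ : Finset V) ⊆ A.biUnion t ∪ (univ : Finset (Fin k)).image v := by
          intro z _
          rw [Finset.mem_union]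
          by_cases hzi : ∃ i, v i = z
          · obtain ⟨i, rfl⟩ := hzi
            exact Or.inr (Finset.mem_image_of_mem _ (Finset.mem_univ _))
          · left
            rw [Finset.mem_biUnion]
            by_cases hz0 : c z = c (v j0.1)
            · refine ⟨j1, hj1, Finset.mem_filter.2 ⟨Finset.mem_univ _, ?_,
                fun i hi => hzi ⟨i, hi.symm⟩⟩⟩
              rw [hz0]
              exact fun h => hne h.symm
            · exact ⟨j0, hj0, Finset.mem_filter.2 ⟨Finset.mem_univ _, hz0,
                fun i hi => hzi ⟨i, hi.symm⟩⟩⟩
        have h9 := (Finset.card_le_card h8).trans (Finset.card_union_le _ _)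
        have h10 : ((univ : Finset (Fin k)).image v).card ≤ k := by
          refine Finset.card_image_le.trans ?_
          rw [Finset.card_univ, Fintype.card_fin]
        rw [Finset.card_univ] at h9
        omega
      omega
  obtain ⟨f, hf, hft⟩ := (Finset.all_card_le_biUnion_card_iff_exists_injective t).1 hall
  refine ⟨fun j => if h : J j then f ⟨j, h⟩ else v j, ?_, ?_⟩
  · intro j h1 h2
    have hj : J j := ⟨h1, h2⟩
    have := (Finset.mem_filter.1 (hft ⟨j, hj⟩)).2
    simp only [dif_pos hj]
    exact this
  · intro i j h1 h2 h3 h4 h
    have hi : J i := ⟨h1, h3⟩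
    have hj : J j := ⟨h2, h4⟩
    simp only [dif_pos hi, dif_pos hj] at h
    exact congrArg Subtype.val (hf h)

end Kcg
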