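import Pool.Agent.Kcg.Count

set_option autoImplicit false

namespace Kcg

/-- `k` vertices in blocks of `q` consecutive ones, two of them adjacent iff they are in different
blocks, and `u` more vertices adjacent to everything. -/
def lowGraph (k q u : ℕ) : SimpleGraph (Fin k ⊕ Fin u) where
  Adj x y := x ≠ y ∧ ∀ i j : Fin k, x = Sum.inl i → y = Sum.inl j → (i : ℕ) / q ≠ (j : ℕ) / q
  symm := ⟨fun _ _ h => ⟨h.1.symm, fun i j hi hj => (h.2 j i hj hi).symm⟩⟩
  loopless := ⟨fun _ h => h.1 rfl⟩

private theorem lowg_not {k q u : ℕ} {x y : Fin k ⊕ Fin u} (h : ¬ (lowGraph k q u).Adj x y) :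
    x = y ∨ ∃ i j : Fin k, x = Sum.inl i ∧ y = Sum.inl j ∧ (i : ℕ) / q = (j : ℕ) / q := by
  by_contra hcon
  push Not at hcon
  exact h ⟨hcon.1, fun i j hi hj => hcon.2 i j hi hj⟩

theorem lowGraph_p4free (k q u : ℕ) : P4Free (lowGraph k q u) := by
  intro a b c d hab hbc hcd hac hbd
  rcases lowg_not hac with rfl | ⟨i, i', rfl, rfl, hi⟩
  · exact hcd
  rcases lowg_not hbd with rfl | ⟨j, j', rfl, rfl, hj⟩
  · exact hab
  have h1 := hab.2 i j rfl rfl
  refine ⟨?_, ?_⟩
  · intro h
    have h2 : i = j' := Sum.inl_injective h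
    subst h2
    exact h1 hj.symm
  · intro x y hx hy
    have h2 : i = x := Sum.inl_injective hx
    have h3 : j' = y := Sum.inl_injective hy
    subst h2
    subst h3
    rw [← hj]
    exact h1

/-- The parts have at most `q` elements: deleting fewer than `k + u - q` vertices leaves more than
`q` vertices, so for two non-adjacent ones there is a third one adjacent to both. -/
theorem lowGraph_conn (k q u m : ℕ) (hq : 1 ≤ q) (h : m + q ≤ k + u) :
    MConn m (lowGraph k q u) := by
  have hc : Fintype.card (Fin k ⊕ Fin u) = k + u := by simp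
  refine ⟨by rw [hc]; omega, fun S hS => ?_⟩
  have hex : ∀ B : Finset (Fin k ⊕ Fin u), B.card ≤ q → ∃ z, z ∉ S ∧ z ∉ B := by
    intro B hB
    by_contra hcon
    push Not at hcon
    have h1 : (Finset.univ : Finset (Fin k ⊕ Fin u)) ⊆ S ∪ B := by
      intro z _
      by_cases hz : z ∈ S
      · exact Finset.mem_union_left _ hz
      · exact Finset.mem_union_right _ (hcon z hz)
    have h2 := (Finset.card_le_card h1).trans (Finset.card_union_le S B)
    rw [Finset.card_univ, hc] at h2
    omega
  rw [SimpleGraph.connected_iff]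
  constructor
  · rintro ⟨x, hx⟩ ⟨y, hy⟩
    by_cases hxy : (lowGraph k q u).Adj x y
    · exact SimpleGraph.Adj.reachable (by exact hxy)
    · rcases lowg_not hxy with rfl | ⟨i, j, rfl, rfl, hij⟩
      · exact SimpleGraph.Reachable.refl _
      obtain ⟨z, hzS, hzB⟩ := hex (Finset.univ.filter fun z => ∃ l : Fin k, z = Sum.inl l ∧
        (l : ℕ) / q = (i : ℕ) / q) (by
          have h3 : (Finset.range q).card = q := Finset.card_range q
          refine le_of_le_of_eq (Finset.card_le_card_of_injOn (t := Finset.range q)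
            (fun z => Sum.elim (fun l : Fin k => (l : ℕ) % q) (fun _ => 0) z) ?_ ?_) h3
          · intro z hz
            simp only [Finset.coe_filter, Finset.mem_univ, true_and, Set.mem_ofPred_eq] at hz
            obtain ⟨l, rfl, _⟩ := hz
            simp only [Sum.elim_inl, Finset.coe_range, Set.mem_Iio]
            exact Nat.mod_lt _ hq
          · intro z hz z' hz' hzz
            simp only [Finset.coe_filter, Finset.mem_univ, true_and, Set.mem_ofPred_eq] at hz hz'
            obtain ⟨l, rfl, hl⟩ := hz
            obtain ⟨l', rfl, hl'⟩ := hz'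
            simp only [Sum.elim_inl] at hzz
            congr 1
            ext
            rw [← Nat.div_add_mod (l : ℕ) q, ← Nat.div_add_mod (l' : ℕ) q, hl, hl', hzz])
      have key : ∀ l : Fin k, (l : ℕ) / q = (i : ℕ) / q → (lowGraph k q u).Adj (Sum.inl l) z := by
        intro l hl
        refine ⟨?_, ?_⟩
        · rintro rfl
          exact hzB (by simp [hl])
        · intro a b ha hb hab
          have h4 : l = a := Sum.inl_injective ha
          subst h4
          exact hzB (by
            rw [Finset.mem_filter]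
            exact ⟨Finset.mem_univ _, b, hb, by rw [← hab, hl]⟩)
      have e1 : ((lowGraph k q u).induce {x | x ∉ S}).Adj ⟨Sum.inl i, hx⟩ ⟨z, hzS⟩ := key i rfl
      have e2 : ((lowGraph k q u).induce {x | x ∉ S}).Adj ⟨Sum.inl j, hy⟩ ⟨z, hzS⟩ :=
        key j hij.symm
      exact e1.reachable.trans e2.reachable.symm
  · obtain ⟨z, hz, _⟩ := hex ∅ (by simp)
    exact ⟨⟨z, hz⟩⟩

private theorem lown_len {A B : Type} [Fintype A] [Fintype B] (L : List (A ⊕ B)) (hL : L.Nodup)
    (h : ∀ x ∈ L, x.isLeft = true) : L.length ≤ Fintype.card A := by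
  classical
  rw [← List.toFinset_card_of_nodup hL]
  have h1 : L.toFinset ⊆ (Finset.univ : Finset A).image Sum.inl := by
    intro x hx
    rw [List.mem_toFinset] at hx
    obtain ⟨a, rfl⟩ := Sum.isLeft_iff.1 (h x hx)
    exact Finset.mem_image_of_mem _ (Finset.mem_univ a)
  exact (Finset.card_le_card h1).trans Finset.card_image_le

private theorem lown_len' {A B : Type} [Fintype A] [Fintype B] (L : List (A ⊕ B)) (hL : L.Nodup)
    (h : ∀ x ∈ L, x.isLeft = false) : L.length ≤ Fintype.card B := by
  classical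
  rw [← List.toFinset_card_of_nodup hL]
  have h1 : L.toFinset ⊆ (Finset.univ : Finset B).image Sum.inr := by
    intro x hx
    rw [List.mem_toFinset] at hx
    obtain ⟨b, rfl⟩ := Sum.isRight_iff.1 (Sum.isLeft_eq_false.1 (h x hx))
    exact Finset.mem_image_of_mem _ (Finset.mem_univ b)
  exact (Finset.card_le_card h1).trans Finset.card_image_le

theorem lowGraph_not_ordered (k q u : ℕ) (hq : 1 ≤ q) (hu : u < k - 1 - (k - 1) / q) :
    ¬ KOrdered k (lowGraph k q u) := by
  classical
  intro hK
  obtain ⟨L, ⟨_, hnd, hch, _⟩, hsub⟩ := hK Sum.inl Sum.inl_injective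
  have hadj : ∀ i j : Fin k, (lowGraph k q u).Adj (Sum.inl i) (Sum.inl j) ↔
      (i : ℕ) / q ≠ (j : ℕ) / q := by
    intro i j
    constructor
    · intro h
      exact h.2 i j rfl rfl
    · intro h
      refine ⟨fun he => h ?_, fun i' j' hi hj => ?_⟩
      · rw [Sum.inl_injective he]
      · rw [← Sum.inl_injective hi, ← Sum.inl_injective hj]
        exact h
  have hall : ∀ x ∈ List.ofFn (Sum.inl : Fin k → Fin k ⊕ Fin u), x.isLeft = true := by
    intro x hx
    rw [List.mem_ofFn'] at hx
    obtain ⟨i, rfl⟩ := hx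
    rfl
  have hs2 : (List.ofFn (Sum.inl : Fin k → Fin k ⊕ Fin u)).Sublist (L.filter Sum.isLeft) := by
    have h1 := hsub.filter Sum.isLeft
    rwa [List.filter_eq_self.2 hall] at h1
  have hlen : (L.filter Sum.isLeft).length ≤ k := by
    have h1 := lown_len (L.filter Sum.isLeft) (hnd.filter _) (fun x hx => (List.mem_filter.1 hx).2)
    rwa [Fintype.card_fin] at h1
  have heq : List.ofFn (Sum.inl : Fin k → Fin k ⊕ Fin u) = L.filter Sum.isLeft :=
    hs2.eq_of_length_le (by rw [List.length_ofFn]; exact hlen)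
  have hb := bad_filter_le (lowGraph k q u).Adj Sum.isLeft L hch
  rw [← heq, bad_ofFn k q hq (lowGraph k q u).Adj Sum.inl hadj] at hb
  have hlen' := lown_len' (L.filter fun x => !Sum.isLeft x) (hnd.filter _) (fun x hx => by
    have h1 := (List.mem_filter.1 hx).2
    simpa using h1)
  rw [Fintype.card_fin] at hlen'
  omega

end Kcg
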