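import Pool.Agent.Kcg.Sein
import Pool.Agent.Kcg.Cyc
import Pool.Agent.Kcg.Hall
import Pool.Agent.Kcg.Arith
import Pool.Agent.Kcg.Low

set_option autoImplicit false

namespace Kcg

open Finset

theorem adj_of_ne {V : Type} (G : SimpleGraph V) {x y : V}
    (h : Gᶜ.connectedComponentMk x ≠ Gᶜ.connectedComponentMk y) : G.Adj x y := by
  by_contra hc
  apply h
  by_cases hxy : x = y
  · rw [hxy]
  · exact SimpleGraph.ConnectedComponent.sound
      ((SimpleGraph.compl_adj G x y).2 ⟨hxy, hc⟩).reachable

theorem eq_of_not_adj {V : Type} (G : SimpleGraph V) {x y : V} (h : ¬ G.Adj x y) :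
    Gᶜ.connectedComponentMk x = Gᶜ.connectedComponentMk y := by
  by_contra hc
  exact h (adj_of_ne G hc)

theorem upper (k : ℕ) (hk : 4 ≤ k) {V : Type} [Fintype V] (G : SimpleGraph V) (hP : P4Free G)
    (hG : MConn (2 * k - ⌈2 * √(k : ℝ)⌉₊) G) : KOrdered k G := by
  classical
  intro v hv
  have : NeZero k := ⟨by omega⟩
  have hceil := ceil_le_self k hk
  set m := 2 * k - ⌈2 * √(k : ℝ)⌉₊ with hm
  have hm' : ∀ x y, x ≠ y → Gᶜ.connectedComponentMk x = Gᶜ.connectedComponentMk y →
      m ≤ (univ.filter (fun z => Gᶜ.connectedComponentMk z ≠ Gᶜ.connectedComponentMk x)).card := by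
    intro x y hxy hc
    by_contra hlt
    have h1 := hG.2 _ (not_le.1 hlt)
    set C : Finset V :=
      univ.filter (fun z => Gᶜ.connectedComponentMk z = Gᶜ.connectedComponentMk x) with hC
    have hCs : {z | z ∉ univ.filter
        (fun z => Gᶜ.connectedComponentMk z ≠ Gᶜ.connectedComponentMk x)} = (C : Set V) := by
      ext z
      simp [hC]
    rw [hCs] at h1
    have hCs2 : (C : Set V) = (Gᶜ.connectedComponentMk x).supp := by
      ext z
      simp [hC, SimpleGraph.ConnectedComponent.mem_supp_iff]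
    have h2 : (Gᶜ.induce (C : Set V)).Connected := by
      rw [hCs2]
      exact (Gᶜ.connectedComponentMk x).connected_toSimpleGraph
    have hcard : 2 ≤ C.card := by
      have hsub : ({x, y} : Finset V) ⊆ C := by
        intro z hz
        rw [Finset.mem_insert, Finset.mem_singleton] at hz
        rw [hC, Finset.mem_filter]
        rcases hz with rfl | rfl
        · exact ⟨Finset.mem_univ _, rfl⟩
        · exact ⟨Finset.mem_univ _, hc.symm⟩
      calc 2 = ({x, y} : Finset V).card := (Finset.card_pair hxy).symm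
        _ ≤ C.card := Finset.card_le_card hsub
    exact seinsche G hP C hcard h1 h2
  obtain ⟨f, hf, hfinj⟩ := exists_connectors (fun x => Gᶜ.connectedComponentMk x) k m
    (by omega) (fun r q hrq => by have := ceil_le k r q hrq; omega) v hv hm'
  have hne : ∀ j : Fin k, v j ≠ v (j + 1) := by
    intro j h
    have h1 := hv h
    have h2 : (1 : Fin k) = 0 := by
      have := h1.symm
      simpa using this
    have h3 := congrArg Fin.val h2
    rw [Fin.val_one', Fin.val_zero] at h3
    rw [Nat.mod_eq_of_lt (by omega)] at h3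
    exact one_ne_zero h3
  refine exists_cycle G k (by omega) v hv f ?_ ?_
  · intro j hj
    have hc := eq_of_not_adj G hj
    obtain ⟨h1, h2⟩ := hf j hc (hne j)
    refine ⟨adj_of_ne G (Ne.symm h1), adj_of_ne G ?_, h2⟩
    rw [← hc]; exact h1
  · intro i j hi hj hij
    exact hfinj i j (eq_of_not_adj G hi) (eq_of_not_adj G hj) (hne i) (hne j) hij

theorem lower (k : ℕ) (hk : 4 ≤ k) (m : ℕ) (hm : m < 2 * k - ⌈2 * √(k : ℝ)⌉₊) :
    ∃ (V : Type) (_ : Fintype V) (G : SimpleGraph V), P4Free G ∧ MConn m G ∧ ¬ KOrdered k G := by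
  obtain ⟨q, hq1, hqk, hq⟩ := exists_q k (by omega)
  have hceil := ceil_le_self k hk
  have hq2 : 2 ≤ q := by
    by_contra h
    have : q = 1 := by omega
    subst this
    rw [Nat.div_one] at hq
    omega
  refine ⟨Fin k ⊕ Fin (k - 2 - (k - 1) / q), inferInstance, lowGraph k q _,
    lowGraph_p4free _ _ _, lowGraph_conn _ _ _ m hq1 ?_, lowGraph_not_ordered _ _ _ hq1 ?_⟩
  · omega
  · omega

end Kcg
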