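import Pool.Agent.Kcg.Defs

set_option autoImplicit false

namespace Kcg

open Finset

private theorem seinsche_compl {V : Type} {G : SimpleGraph V} (hP : P4Free G) : P4Free Gᶜ := by
  intro a b c d hab hbc hcd hac hbd
  rw [SimpleGraph.compl_adj] at hab hbc hcd hac hbd ⊢
  by_contra had
  rw [not_and_not_right] at hac hbd had
  have h1 : a ≠ c := by
    rintro rfl
    exact hcd.2 (had hcd.1)
  have h2 : b ≠ d := by
    rintro rfl
    exact hab.2 (had hab.1)
  have h3 : a ≠ d := by
    rintro rfl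
    exact hcd.2 (hac h1).symm
  exact hbc.2 (hP c a d b (hac h1).symm (had h3) (hbd h2).symm hcd.2 hab.2).symm

/-- a cut of the set `C` -/
private def seinsche_cut {V : Type} [DecidableEq V] (G : SimpleGraph V) (C : Finset V) : Prop :=
  ∃ A ⊆ C, A.Nonempty ∧ (C \ A).Nonempty ∧ ∀ a ∈ A, ∀ b ∈ C \ A, ¬ G.Adj a b

/-- one step: a cut of `C - x` gives a cut of `C` in `G` or in the complement -/
private theorem seinsche_step {V : Type} [DecidableEq V] (G : SimpleGraph V) (hP : P4Free G)
    (C : Finset V) (x : V) (hx : x ∈ C) (h : seinsche_cut G (C.erase x)) :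
    seinsche_cut G C ∨ seinsche_cut Gᶜ C := by
  classical
  obtain ⟨A, hA, hA0, hB0, hAB⟩ := h
  obtain ⟨B, hB⟩ : ∃ B, B = C.erase x \ A := ⟨_, rfl⟩
  rw [← hB] at hB0 hAB
  have hxA : x ∉ A := fun h => (mem_erase.1 (hA h)).1 rfl
  have hxB : x ∉ B := fun h => by
    rw [hB, mem_sdiff, mem_erase] at h
    exact h.1.1 rfl
  have hAC : A ⊆ C := fun a ha => (mem_erase.1 (hA ha)).2
  have hBC : B ⊆ C := fun a ha => by
    rw [hB, mem_sdiff, mem_erase] at ha
    exact ha.1.2
  have hC : ∀ y ∈ C, y = x ∨ y ∈ A ∨ y ∈ B := fun y hy => by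
    by_cases h1 : y = x
    · exact Or.inl h1
    · by_cases h2 : y ∈ A
      · exact Or.inr (Or.inl h2)
      · exact Or.inr (Or.inr (by rw [hB, mem_sdiff, mem_erase]; exact ⟨⟨h1, hy⟩, h2⟩))
  have hdis : ∀ y ∈ A, y ∉ B := fun y hy hy' => by
    rw [hB, mem_sdiff] at hy'
    exact hy'.2 hy
  by_contra hcon
  rw [not_or] at hcon
  obtain ⟨hc1, hc2⟩ := hcon
  -- the general step for one side
  have key : ∀ A B : Finset V, A ⊆ C → B ⊆ C → x ∉ A → x ∉ B →
      (∀ y ∈ C, y = x ∨ y ∈ A ∨ y ∈ B) → (∀ y ∈ A, y ∉ B) → B.Nonempty → 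
      (∀ a ∈ A, ∀ b ∈ B, ¬ G.Adj a b) → (∃ z ∈ B, G.Adj x z) → ∀ y ∈ A, G.Adj x y := by
    intro A B hAC hBC hxA hxB hC hdis hB0 hAB ⟨z, hz, hxz⟩ y hy
    by_contra hxy
    apply hc1
    refine ⟨A.filter fun b => ¬ G.Adj x b, (filter_subset _ _).trans hAC,
      ⟨y, mem_filter.2 ⟨hy, hxy⟩⟩, ⟨x, mem_sdiff.2 ⟨hx, fun h => hxA (mem_filter.1 h).1⟩⟩, ?_⟩
    intro b hb a ha hba
    rw [mem_filter] at hb
    rw [mem_sdiff, mem_filter, not_and_not_right] at ha
    rcases hC a ha.1 with rfl | h1 | h1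
    · exact hb.2 hba.symm
    · -- the path z x a b
      have h2 : G.Adj x a := ha.2 h1
      have h3 := hP z x a b hxz.symm h2 hba.symm (fun h => hAB a h1 z hz h.symm) hb.2
      exact hAB b hb.1 z hz h3.symm
    · exact hAB b hb.1 a h1 hba
  have nA : ∃ z ∈ A, G.Adj x z := by
    by_contra hn
    push Not at hn
    apply hc1
    refine ⟨A, hAC, hA0, ⟨x, mem_sdiff.2 ⟨hx, hxA⟩⟩, fun a ha b hb hab => ?_⟩
    rw [mem_sdiff] at hb
    rcases hC b hb.1 with rfl | h1 | h1
    · exact hn a ha hab.symm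
    · exact hb.2 h1
    · exact hAB a ha b h1 hab
  have nB : ∃ z ∈ B, G.Adj x z := by
    by_contra hn
    push Not at hn
    apply hc1
    refine ⟨B, hBC, hB0, ⟨x, mem_sdiff.2 ⟨hx, hxB⟩⟩, fun a ha b hb hab => ?_⟩
    rw [mem_sdiff] at hb
    rcases hC b hb.1 with rfl | h1 | h1
    · exact hn a ha hab.symm
    · exact hAB b h1 a ha hab.symm
    · exact hb.2 h1
  have k1 := key A B hAC hBC hxA hxB hC hdis hB0 hAB nB
  have k2 := key B A hBC hAC hxB hxA (fun y hy => by
    rcases hC y hy with h | h | h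
    · exact Or.inl h
    · exact Or.inr (Or.inr h)
    · exact Or.inr (Or.inl h)) (fun y hy hy' => hdis y hy' hy) hA0
    (fun a ha b hb h => hAB b hb a ha h.symm) nA
  apply hc2
  obtain ⟨a0, ha0⟩ := hA0
  refine ⟨{x}, singleton_subset_iff.2 hx, ⟨x, mem_singleton_self x⟩,
    ⟨a0, mem_sdiff.2 ⟨hAC ha0, fun h => hxA (mem_singleton.1 h ▸ ha0)⟩⟩, fun a ha b hb hab => ?_⟩
  rw [mem_singleton] at ha
  subst ha
  rw [SimpleGraph.compl_adj] at hab
  rcases hC b (mem_sdiff.1 hb).1 with h | h | h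
  · exact hab.1 h.symm
  · exact hab.2 (k1 b h)
  · exact hab.2 (k2 b h)

private theorem seinsche_main {V : Type} [DecidableEq V] (n : ℕ) :
    ∀ (G : SimpleGraph V), P4Free G → ∀ C : Finset V, C.card = n + 2 →
      seinsche_cut G C ∨ seinsche_cut Gᶜ C := by
  induction n with
  | zero =>
    intro G _ C hC
    obtain ⟨a, b, hab, rfl⟩ := card_eq_two.1 (show C.card = 2 from hC)
    have h1 : ∀ y ∈ ({a, b} : Finset V) \ {a}, y = b := fun y hy => by
      rw [mem_sdiff, mem_insert, mem_singleton, mem_singleton] at hy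
      rcases hy.1 with h | h
      · exact absurd h hy.2
      · exact h
    have h2 : (({a, b} : Finset V) \ {a}).Nonempty :=
      ⟨b, by rw [mem_sdiff, mem_insert, mem_singleton, mem_singleton]; exact ⟨Or.inr rfl, hab.symm⟩⟩
    have h3 : ({a} : Finset V) ⊆ {a, b} := by
      rw [singleton_subset_iff, mem_insert]
      exact Or.inl rfl
    by_cases h : G.Adj a b
    · refine Or.inr ⟨{a}, h3, ⟨a, mem_singleton_self a⟩, h2, fun x hx y hy hxy => ?_⟩
      rw [mem_singleton.1 hx, h1 y hy, SimpleGraph.compl_adj] at hxy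
      exact hxy.2 h
    · refine Or.inl ⟨{a}, h3, ⟨a, mem_singleton_self a⟩, h2, fun x hx y hy hxy => ?_⟩
      rw [mem_singleton.1 hx, h1 y hy] at hxy
      exact h hxy
  | succ n ih =>
    intro G hP C hC
    obtain ⟨x, hx⟩ : C.Nonempty := card_pos.1 (by omega)
    have h1 : (C.erase x).card = n + 2 := by rw [card_erase_of_mem hx, hC]; omega
    rcases ih G hP (C.erase x) h1 with h | h
    · exact seinsche_step G hP C x hx h
    · rcases seinsche_step Gᶜ (seinsche_compl hP) C x hx h with h' | h'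
      · exact Or.inr h'
      · rw [compl_compl] at h'
        exact Or.inl h'

private theorem seinsche_cut_conn {V : Type} [DecidableEq V] (G : SimpleGraph V) (C : Finset V)
    (h1 : (G.induce (C : Set V)).Connected) (h : seinsche_cut G C) : False := by
  obtain ⟨A, hA, ⟨a, ha⟩, ⟨b, hb⟩, hAB⟩ := h
  have hr : ∀ u v : (C : Set V), (G.induce (C : Set V)).Reachable u v → (u : V) ∈ A →
      (v : V) ∈ A := by
    intro u v huv hu
    obtain ⟨w⟩ := huv
    induction w with
    | nil => exact hu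
    | @cons u w' v hadj _ ih =>
      apply ih
      by_contra hw
      exact hAB u hu w' (mem_sdiff.2 ⟨w'.2, hw⟩) hadj
  exact (mem_sdiff.1 hb).2 (hr ⟨a, hA ha⟩ ⟨b, (mem_sdiff.1 hb).1⟩ (h1.preconnected _ _) ha)

/-- Seinsche: a graph with at least two vertices and no induced `P4` is not connected or its
complement is not connected. Induction on `C.card`: delete `x`; say `G[C - x]` is disconnected
(otherwise take complements, `P4Free Gᶜ`); `x` has a neighbour in every component and a
non-neighbour in some component `D`, so there are adjacent `a, b` in `D` with `a ~ x`, `b ≁ x`, and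
`z ~ x` in another component: `z, x, a, b` is an induced `P4`. -/
theorem seinsche {V : Type} (G : SimpleGraph V) (hP : P4Free G) (C : Finset V) (hC : 2 ≤ C.card)
    (h1 : (G.induce (C : Set V)).Connected) (h2 : (Gᶜ.induce (C : Set V)).Connected) : False := by
  classical
  rcases seinsche_main (C.card - 2) G hP C (by omega) with h | h
  · exact seinsche_cut_conn G C h1 h
  · exact seinsche_cut_conn Gᶜ C h2 h

end Kcg
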